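import Pool.Agent.W795.HE.Stm

/-!
A continuous nondecreasing function which is constant near the times at which `y` is small and
which is left Hoelder continuous of order `1/2` at all but countably many points is constant.
-/

set_option autoImplicit false

open MeasureTheory Set Filter Topology
open scoped ENNReal

namespace Pool.Agent.W585.HE

/-- real induction from the right to the left -/
theorem realind {T : ℝ} (hT : 0 < T) {D : ℝ → ℝ} (hD : ContinuousOn D (Icc 0 T)) (μ : Measure ℝ)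
    (h : ∀ t ∈ Ioc 0 T, ∃ s0 < t, ∀ s ∈ Ioo s0 t, 0 ≤ s →
      ENNReal.ofReal (D t - D s) ≤ μ (Ioc s t)) :
    ENNReal.ofReal (D T - D 0) ≤ μ (Ioc 0 T) := by
  obtain ⟨Z, hZ⟩ : ∃ Z : Set ℝ, Z = {s | s ∈ Icc 0 T ∧ ∀ u ∈ Icc s T,
    ENNReal.ofReal (D T - D u) ≤ μ (Ioc u T)} := ⟨_, rfl⟩
  have hTZ : T ∈ Z := by
    rw [hZ]
    refine ⟨right_mem_Icc.2 hT.le, fun u hu => ?_⟩
    have : u = T := le_antisymm hu.2 hu.1
    subst this
    simp
  have hbd : BddBelow Z := ⟨0, fun s hs => by rw [hZ] at hs; exact hs.1.1⟩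
  obtain ⟨a, ha⟩ : ∃ a, a = sInf Z := ⟨_, rfl⟩
  have ha0 : 0 ≤ a := by
    rw [ha]
    exact le_csInf ⟨T, hTZ⟩ fun s hs => by rw [hZ] at hs; exact hs.1.1
  have haT : a ≤ T := by
    rw [ha]
    exact csInf_le hbd hTZ
  have h1 : ∀ u ∈ Ioc a T, ENNReal.ofReal (D T - D u) ≤ μ (Ioc u T) := by
    intro u hu
    have : sInf Z < u := by rw [← ha]; exact hu.1
    obtain ⟨z, hz, hzu⟩ := exists_lt_of_csInf_lt ⟨T, hTZ⟩ this
    rw [hZ] at hz
    exact hz.2 u ⟨hzu.le, hu.2⟩
  have h2 : ENNReal.ofReal (D T - D a) ≤ μ (Ioc a T) := by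
    rcases haT.eq_or_lt with hh | hlt
    · rw [hh]
      simp
    · have hc : Tendsto D (𝓝[Ioo a T] a) (𝓝 (D a)) :=
        (hD a ⟨ha0, haT⟩).mono_left (nhdsWithin_mono a fun x hx => ⟨ha0.trans hx.1.le, hx.2.le⟩)
      have hc2 : Tendsto (fun u => ENNReal.ofReal (D T - D u)) (𝓝[Ioo a T] a)
          (𝓝 (ENNReal.ofReal (D T - D a))) :=
        (ENNReal.continuous_ofReal.tendsto _).comp (tendsto_const_nhds.sub hc)
      have hne : (𝓝[Ioo a T] a).NeBot := by
        rw [nhdsWithin_Ioo_eq_nhdsGT hlt]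
        infer_instance
      refine le_of_tendsto hc2 ?_
      filter_upwards [self_mem_nhdsWithin] with u hu
      refine (h1 u ⟨hu.1, hu.2.le⟩).trans (measure_mono ?_)
      exact Ioc_subset_Ioc_left hu.1.le
  have ha00 : a = 0 := by
    by_contra hne
    have hapos : 0 < a := lt_of_le_of_ne ha0 (Ne.symm hne)
    obtain ⟨s0, hs0, hs⟩ := h a ⟨hapos, haT⟩
    have hm : max s0 0 < a := max_lt hs0 hapos
    obtain ⟨s1, hs1, hs1a⟩ := exists_between hm
    have hs1' : s0 < s1 := (le_max_left _ _).trans_lt hs1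
    have hs10 : 0 < s1 := (le_max_right _ _).trans_lt hs1
    have hmem : s1 ∈ Z := by
      rw [hZ]
      refine ⟨⟨hs10.le, hs1a.le.trans haT⟩, fun u hu => ?_⟩
      rcases lt_trichotomy u a with hua | hua | hua
      · have e1 := hs u ⟨hs1'.trans_le hu.1, hua⟩ (hs10.le.trans hu.1)
        calc ENNReal.ofReal (D T - D u) = ENNReal.ofReal ((D T - D a) + (D a - D u)) := by
              congr 1; ring
          _ ≤ ENNReal.ofReal (D T - D a) + ENNReal.ofReal (D a - D u) := ENNReal.ofReal_add_le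
          _ ≤ μ (Ioc a T) + μ (Ioc u a) := add_le_add h2 e1
          _ = μ (Ioc u a ∪ Ioc a T) := by
              rw [add_comm, measure_union _ measurableSet_Ioc]
              rw [Set.disjoint_left]
              intro x hx hx'
              exact absurd hx'.1 (not_lt.2 hx.2)
          _ = μ (Ioc u T) := by rw [Ioc_union_Ioc_eq_Ioc hua.le haT]
      · rw [hua]; exact h2
      · exact h1 u ⟨hua, hu.2⟩
    have : a ≤ s1 := by
      rw [ha]
      exact csInf_le hbd hmem
    exact absurd hs1a (not_lt.2 this)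
  rw [ha00] at h2
  exact h2

/-- the times near which `D` is not constant -/
def Sg (T : ℝ) (D : ℝ → ℝ) : Set ℝ :=
  {t | t ∈ Ioo 0 T ∧ ∀ ε > 0, ∃ s ∈ Ioo (t - ε) (t + ε), s ∈ Icc 0 T ∧ D s ≠ D t}

theorem not_Sg {T : ℝ} {D : ℝ → ℝ} {t : ℝ} (ht : t ∈ Ioo 0 T) (h : t ∉ Sg T D) :
    ∃ ε > 0, ∀ s ∈ Ioo (t - ε) (t + ε), s ∈ Icc 0 T → D s = D t := by
  by_contra hcon
  push Not at hcon
  apply h
  refine ⟨ht, fun ε hε => ?_⟩
  obtain ⟨s, hs, hsT, hne⟩ := hcon ε hε
  exact ⟨s, hs, hsT, hne⟩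

/-- `D` is constant on an interval around `t` -/
theorem not_mem_Sg {T : ℝ} {D : ℝ → ℝ} {t a b d : ℝ} (hat : a < t) (htb : t < b)
    (h : ∀ s ∈ Icc a b, D s = d) : t ∉ Sg T D := by
  rintro ⟨-, h'⟩
  obtain ⟨s, hs, -, hne⟩ := h' (min (t - a) (b - t)) (lt_min (by linarith) (by linarith))
  have h1 : min (t - a) (b - t) ≤ t - a := min_le_left _ _
  have h2 : min (t - a) (b - t) ≤ b - t := min_le_right _ _
  apply hne
  rw [h s ⟨by linarith [hs.1], by linarith [hs.2]⟩, h t ⟨hat.le, htb.le⟩]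

/-- the condition on the good times -/
def Gd (T c : ℝ) (D f : ℝ → ℝ) (s : ℝ) : Prop := ∀ t ∈ Icc s T, (t - s) * (f s) ^ 2 ≤ c → D t = D s

/-- a good time is isolated from the right -/
theorem isol {T c : ℝ} (hc : 0 < c) {D f : ℝ → ℝ} {s : ℝ} (hs : Gd T c D f s) :
    ∃ y > s, Sg T D ∩ Ioo s y = ∅ := by
  obtain ⟨δ, hδ, hδ2⟩ : ∃ δ > 0, δ * (f s) ^ 2 ≤ c := by
    refine ⟨c / (f s ^ 2 + 1), by positivity, ?_⟩
    rw [div_mul_eq_mul_div, div_le_iff₀ (by positivity)]
    nlinarith [sq_nonneg (f s)]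
  refine ⟨s + δ, by linarith, ?_⟩
  rw [Set.eq_empty_iff_forall_notMem]
  rintro t ⟨ht, ht1, ht2⟩
  have htT := ht.1.2
  refine not_mem_Sg (a := s) (b := min (s + δ) T) (d := D s) ht1 (lt_min ht2 htT) ?_ ht
  intro u hu
  have hu1 : u ≤ s + δ := hu.2.trans (min_le_left _ _)
  refine hs u ⟨hu.1, hu.2.trans (min_le_right _ _)⟩ ?_
  calc (u - s) * f s ^ 2 ≤ δ * f s ^ 2 :=
        mul_le_mul_of_nonneg_right (by linarith) (sq_nonneg _)
    _ ≤ c := hδ2

/-- lower bound of `f` to the left of a time in `Sg` -/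
theorem low {T c : ℝ} {D f : ℝ → ℝ} {s t : ℝ} (hs : Gd T c D f s)
    (ht : t ∈ Sg T D) (hst : s < t) : c ≤ (t - s) * (f s) ^ 2 := by
  by_contra hcon
  push Not at hcon
  have htT := ht.1.2
  -- a slightly larger time
  obtain ⟨u, hu1, hu2, hu3⟩ : ∃ u, t < u ∧ u ≤ T ∧ (u - s) * (f s) ^ 2 ≤ c := by
    have hcont : Tendsto (fun u => (u - s) * (f s) ^ 2) (𝓝[>] t) (𝓝 ((t - s) * (f s) ^ 2)) := by
      have : Continuous (fun u : ℝ => (u - s) * (f s) ^ 2) := by fun_prop
      exact (this.tendsto t).mono_left nhdsWithin_le_nhds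
    have h1 : ∀ᶠ u in 𝓝[>] t, (u - s) * (f s) ^ 2 < c := hcont.eventually (gt_mem_nhds hcon)
    have h2 : ∀ᶠ u in 𝓝[>] t, u ∈ Ioo t T := Ioo_mem_nhdsGT htT
    obtain ⟨u, hu1, hu2⟩ := (h1.and h2).exists
    exact ⟨u, hu2.1, hu2.2.le, hu1.le⟩
  refine not_mem_Sg (a := s) (b := u) (d := D s) hst hu1 ?_ ht
  intro v hv
  refine hs v ⟨hv.1, hv.2.trans hu2⟩ ?_
  calc (v - s) * f s ^ 2 ≤ (u - s) * f s ^ 2 :=
        mul_le_mul_of_nonneg_right (by linarith [hv.2]) (sq_nonneg _)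
    _ ≤ c := hu3

theorem Sg_null {T c : ℝ} (hc : 0 < c) {D f : ℝ → ℝ}
    (h : ∀ᵐ s ∂(volume.restrict (Ioc 0 T)), Gd T c D f s) : volume (Sg T D) = 0 := by
  rw [ae_restrict_iff' measurableSet_Ioc] at h
  have h1 : {x ∈ Sg T D | ∃ y > x, Sg T D ∩ Ioo x y = ∅}.Countable := by
    refine (countable_setOfPred_isolated_right_within (s := Sg T D)).mono ?_
    rintro x ⟨hx, y, hy, he⟩
    refine ⟨hx, ?_⟩
    rw [← Filter.empty_mem_iff_bot, mem_nhdsWithin]
    refine ⟨Iio y, isOpen_Iio, hy, ?_⟩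
    rintro z ⟨hz1, hz2, hz3⟩
    rw [← he]
    exact ⟨hz2, hz3, hz1⟩
  have h2 : volume {s | ¬ (s ∈ Ioc 0 T → Gd T c D f s)} = 0 := h
  refine measure_mono_null (t := {x ∈ Sg T D | ∃ y > x, Sg T D ∩ Ioo x y = ∅} ∪
    {s | ¬ (s ∈ Ioc 0 T → Gd T c D f s)}) ?_ ?_
  · intro s hs
    by_cases hg : s ∈ Ioc 0 T → Gd T c D f s
    · left
      exact ⟨hs, isol hc (hg ⟨hs.1.1, hs.1.2.le⟩)⟩
    · right
      exact hg
  · rw [measure_union_null_iff]
    exact ⟨h1.measure_zero _, h2⟩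

theorem proof : Pool.Agent.W795.HE.S_meas := by
  intro T c K D y N hT hc hK hN hD hmono hy hint hgood hleft
  obtain ⟨f, hf⟩ : ∃ f : ℝ → ℝ, f = fun s => y s + K := ⟨_, rfl⟩
  have hf0 : ∀ s, 0 ≤ f s := fun s => by rw [hf]; exact add_nonneg (hy s) hK
  have hgd : ∀ᵐ s ∂(volume.restrict (Ioc 0 T)), Gd T c D f s := by
    filter_upwards [hgood] with s hs t ht hts
    rw [hf] at hts
    exact hs t ht hts
  have hS0 : volume (Sg T D) = 0 := Sg_null hc hgd
  -- the measure with density `f`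
  obtain ⟨ν, hν⟩ : ∃ ν : Measure ℝ, ν = (volume.restrict (Ioc 0 T)).withDensity
    (fun x => ENNReal.ofReal (f x)) := ⟨_, rfl⟩
  have hfi : Integrable f (volume.restrict (Ioc 0 T)) := by
    rw [hf]
    exact hint.add (integrable_const K)
  have hνfin : IsFiniteMeasure ν := by
    rw [hν]
    exact isFiniteMeasure_withDensity_ofReal hfi.2
  have hνS : ν (Sg T D) = 0 := by
    rw [hν]
    refine withDensity_absolutelyContinuous _ _ ?_
    exact le_antisymm ((Measure.restrict_apply_le _ _).trans hS0.le) (zero_le)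
  have hsc : 0 < Real.sqrt c := Real.sqrt_pos.2 hc
  -- lower bound for `ν`
  have hlow : ∀ t ∈ Sg T D, ∀ s, 0 ≤ s → s < t →
      ENNReal.ofReal (Real.sqrt c * Real.sqrt (t - s)) ≤ ν (Ioc s t) := by
    intro t ht s hs hst
    have hts : 0 < t - s := by linarith
    have hsq : 0 < Real.sqrt (t - s) := Real.sqrt_pos.2 hts
    have hsub : Ioc s t ⊆ Ioc 0 T := fun x hx => ⟨hs.trans_lt hx.1, hx.2.trans ht.1.2.le⟩
    have e1 : ν (Ioc s t) = ∫⁻ a in Ioc s t, ENNReal.ofReal (f a) := by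
      rw [hν, withDensity_apply _ measurableSet_Ioc, Measure.restrict_restrict measurableSet_Ioc,
        inter_eq_left.2 hsub]
    rw [e1]
    have e2 : ∫⁻ _ in Ioc s t, ENNReal.ofReal (Real.sqrt c / Real.sqrt (t - s)) ≤
        ∫⁻ a in Ioc s t, ENNReal.ofReal (f a) := by
      refine lintegral_mono_ae ?_
      rw [ae_restrict_iff' measurableSet_Ioc]
      rw [ae_restrict_iff' measurableSet_Ioc] at hgd
      have hne : ∀ᵐ a ∂(volume : Measure ℝ), a ≠ t := by
        rw [ae_iff]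
        simp
      filter_upwards [hgd, hne] with a ha hat haI
      refine ENNReal.ofReal_le_ofReal ?_
      have hat' : a < t := lt_of_le_of_ne haI.2 hat
      have h1 := low (ha (hsub haI)) ht hat'
      rw [div_le_iff₀ hsq]
      refine Real.sqrt_le_iff.2 ⟨mul_nonneg (hf0 a) hsq.le, ?_⟩
      rw [mul_pow, Real.sq_sqrt hts.le]
      calc c ≤ (t - a) * f a ^ 2 := h1
        _ ≤ (t - s) * f a ^ 2 := mul_le_mul_of_nonneg_right (by linarith [haI.1]) (sq_nonneg _)
        _ = f a ^ 2 * (t - s) := by ring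
    refine le_trans (le_of_eq ?_) e2
    rw [setLIntegral_const, Real.volume_Ioc, ← ENNReal.ofReal_mul (by positivity)]
    congr 1
    have h3 : Real.sqrt (t - s) * Real.sqrt (t - s) = t - s := Real.mul_self_sqrt hts.le
    rw [div_mul_eq_mul_div, eq_div_iff hsq.ne', mul_assoc, h3]
  -- main estimate
  have hmain : ∀ ε : ℝ≥0∞, ε ≠ 0 → ENNReal.ofReal (D T - D 0) ≤ ε + ε := by
    intro ε hε
    obtain ⟨e1, he1, he1s⟩ := ENNReal.exists_pos_sum_of_countable' hε ℕ
    have hNc : Countable (insert T N : Set ℝ) := (hN.insert T).to_subtype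
    obtain ⟨e2, he2, he2s⟩ := ENNReal.exists_pos_sum_of_countable' hε (insert T N : Set ℝ)
    have hO : ∀ n : ℕ, ∃ O : Set ℝ, Sg T D ⊆ O ∧ IsOpen O ∧ ν O < e1 n / ((n : ℝ≥0∞) + 1) := by
      intro n
      obtain ⟨O, h1, h2, h3⟩ := (Sg T D).exists_isOpen_lt_of_lt (μ := ν)
        (e1 n / ((n : ℝ≥0∞) + 1)) (by
          rw [hνS]
          refine ENNReal.div_pos (he1 n).ne' ?_
          exact ENNReal.add_ne_top.2 ⟨ENNReal.natCast_ne_top n, ENNReal.one_ne_top⟩)
      exact ⟨O, h1, h2, h3⟩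
    choose O hO1 hO2 hO3 using hO
    obtain ⟨μ1, hμ1⟩ : ∃ μ1 : Measure ℝ, μ1 = Measure.sum (fun n : ℕ =>
      ((n : ℝ≥0∞) + 1) • ν.restrict (O n)) := ⟨_, rfl⟩
    obtain ⟨μ2, hμ2⟩ : ∃ μ2 : Measure ℝ, μ2 = Measure.sum (fun k : (insert T N : Set ℝ) =>
      e2 k • Measure.dirac (k : ℝ)) := ⟨_, rfl⟩
    have hb1 : μ1 univ ≤ ε := by
      rw [hμ1, Measure.sum_apply _ MeasurableSet.univ]
      refine le_trans (ENNReal.tsum_le_tsum fun n => ?_) he1s.le
      rw [Measure.smul_apply, smul_eq_mul, Measure.restrict_apply MeasurableSet.univ, univ_inter]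
      calc ((n : ℝ≥0∞) + 1) * ν (O n) ≤ ((n : ℝ≥0∞) + 1) * (e1 n / ((n : ℝ≥0∞) + 1)) :=
            mul_le_mul_right (hO3 n).le _
        _ = e1 n := ENNReal.mul_div_cancel (by simp)
            (ENNReal.add_ne_top.2 ⟨ENNReal.natCast_ne_top n, ENNReal.one_ne_top⟩)
    have hb2 : μ2 univ ≤ ε := by
      rw [hμ2, Measure.sum_apply _ MeasurableSet.univ]
      refine le_trans (ENNReal.tsum_le_tsum fun n => ?_) he2s.le
      rw [Measure.smul_apply, smul_eq_mul, measure_univ, mul_one]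
    have hloc : ∀ t ∈ Ioc 0 T, ∃ s0 < t, ∀ s ∈ Ioo s0 t, 0 ≤ s →
        ENNReal.ofReal (D t - D s) ≤ (μ1 + μ2) (Ioc s t) := by
      intro t ht
      by_cases htN : t ∈ (insert T N : Set ℝ)
      · -- exceptional points
        have hc1 : Tendsto D (𝓝[Icc 0 T] t) (𝓝 (D t)) := hD t ⟨ht.1.le, ht.2⟩
        have hc2 : Tendsto (fun s => ENNReal.ofReal (D t - D s)) (𝓝[Icc 0 T] t)
            (𝓝 (ENNReal.ofReal (D t - D t))) :=
          (ENNReal.continuous_ofReal.tendsto _).comp (tendsto_const_nhds.sub hc1)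
        rw [sub_self, ENNReal.ofReal_zero] at hc2
        have hev : ∀ᶠ s in 𝓝[Icc 0 T] t, ENNReal.ofReal (D t - D s) < e2 ⟨t, htN⟩ :=
          hc2.eventually (gt_mem_nhds (he2 _))
        rw [eventually_nhdsWithin_iff] at hev
        obtain ⟨δ, hδ, hball⟩ := Metric.eventually_nhds_iff_ball.1 hev
        refine ⟨t - δ, by linarith, fun s hs hs0 => ?_⟩
        have h1 : ENNReal.ofReal (D t - D s) < e2 ⟨t, htN⟩ := by
          refine hball s ?_ ⟨hs0, hs.2.le.trans ht.2⟩
          rw [Metric.mem_ball, Real.dist_eq, abs_lt]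
          constructor
          · linarith [hs.1]
          · linarith [hs.2]
        refine h1.le.trans ?_
        rw [Measure.add_apply]
        refine le_add_left ?_
        rw [hμ2, Measure.sum_apply _ measurableSet_Ioc]
        refine le_trans ?_ (ENNReal.le_tsum (⟨t, htN⟩ : (insert T N : Set ℝ)))
        rw [Measure.smul_apply, smul_eq_mul, Measure.dirac_apply' _ measurableSet_Ioc]
        rw [indicator_of_mem (show ((⟨t, htN⟩ : (insert T N : Set ℝ)) : ℝ) ∈ Ioc s t from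
          ⟨hs.2, le_rfl⟩)]
        simp
      · rw [mem_insert_iff, not_or] at htN
        have htT : t < T := lt_of_le_of_ne ht.2 htN.1
        by_cases htS : t ∈ Sg T D
        · obtain ⟨M, h0, hh0, hM⟩ := hleft t ht htN.2
          obtain ⟨n, hn⟩ := exists_nat_ge (M / Real.sqrt c)
          obtain ⟨δ, hδ, hball⟩ := Metric.isOpen_iff.1 (hO2 n) t (hO1 n htS)
          refine ⟨t - min δ h0, by linarith [lt_min hδ hh0], fun s hs hs0 => ?_⟩
          have hst : s < t := hs.2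
          have hm1 : min δ h0 ≤ δ := min_le_left _ _
          have hm2 : min δ h0 ≤ h0 := min_le_right _ _
          have h1 := hM s ⟨hs0, hst.le⟩ (by linarith [hs.1])
          have h2 := hlow t htS s hs0 hst
          have hsub : Ioc s t ⊆ O n := by
            intro x hx
            apply hball
            rw [Metric.mem_ball, Real.dist_eq, abs_lt]
            constructor
            · linarith [hs.1, hx.1]
            · linarith [hx.2]
          have h3 : D t - D s ≤ ((n : ℝ) + 1) * (Real.sqrt c * Real.sqrt (t - s)) := by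
            refine h1.trans ?_
            have hM' : M ≤ ((n : ℝ) + 1) * Real.sqrt c := by
              rw [div_le_iff₀ hsc] at hn
              linarith
            calc M * Real.sqrt (t - s) ≤ (((n : ℝ) + 1) * Real.sqrt c) * Real.sqrt (t - s) :=
                  mul_le_mul_of_nonneg_right hM' (Real.sqrt_nonneg _)
              _ = _ := by ring
          calc ENNReal.ofReal (D t - D s) ≤
                ENNReal.ofReal (((n : ℝ) + 1) * (Real.sqrt c * Real.sqrt (t - s))) :=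
                ENNReal.ofReal_le_ofReal h3
            _ = ((n : ℝ≥0∞) + 1) * ENNReal.ofReal (Real.sqrt c * Real.sqrt (t - s)) := by
                rw [ENNReal.ofReal_mul (by positivity), ENNReal.ofReal_add (by positivity)
                  zero_le_one, ENNReal.ofReal_natCast, ENNReal.ofReal_one]
            _ ≤ ((n : ℝ≥0∞) + 1) * ν (Ioc s t) := mul_le_mul_right h2 _
            _ = (((n : ℝ≥0∞) + 1) • ν.restrict (O n)) (Ioc s t) := by
                rw [Measure.smul_apply, smul_eq_mul, Measure.restrict_apply measurableSet_Ioc,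
                  inter_eq_left.2 hsub]
            _ ≤ μ1 (Ioc s t) := by
                rw [hμ1, Measure.sum_apply _ measurableSet_Ioc]
                exact ENNReal.le_tsum (f := fun n : ℕ =>
                  (((n : ℝ≥0∞) + 1) • ν.restrict (O n)) (Ioc s t)) n
            _ ≤ (μ1 + μ2) (Ioc s t) := by
                rw [Measure.add_apply]
                exact le_add_right le_rfl
        · obtain ⟨ε', hε', hcst⟩ := not_Sg ⟨ht.1, htT⟩ htS
          refine ⟨t - ε', by linarith, fun s hs hs0 => ?_⟩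
          rw [hcst s ⟨hs.1, by linarith [hs.2]⟩ ⟨hs0, hs.2.le.trans ht.2⟩]
          simp
    have hfin := realind hT hD (μ1 + μ2) hloc
    calc ENNReal.ofReal (D T - D 0) ≤ (μ1 + μ2) (Ioc 0 T) := hfin
      _ ≤ (μ1 + μ2) univ := measure_mono (subset_univ _)
      _ = μ1 univ + μ2 univ := Measure.add_apply _ _ _
      _ ≤ ε + ε := add_le_add hb1 hb2
  have hle : ENNReal.ofReal (D T - D 0) ≤ 0 := by
    refine le_of_forall_gt_imp_ge_of_dense ?_
    intro b hb
    have hb2 : b / 2 ≠ 0 := by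
      rw [ne_eq, ENNReal.div_eq_zero_iff]
      push Not
      exact ⟨hb.ne', by norm_num⟩
    have := hmain (b / 2) hb2
    rwa [ENNReal.add_halves] at this
  have h1 : D T - D 0 ≤ 0 := ENNReal.ofReal_eq_zero.1 (le_antisymm hle (zero_le))
  have h2 : D 0 ≤ D T := hmono ⟨le_rfl, hT.le⟩ ⟨hT.le, le_rfl⟩ hT.le
  linarith

end Pool.Agent.W585.HE

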